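import Pool.Agent.Y52.SJ.Stm

/-!
# Job SJ-VAR: first variation at the normal position
-/

set_option autoImplicit false
set_option linter.unusedSectionVars false

open Filter Topology

namespace Pool.Agent.Y291.SJ.Var

open Pool.Agent.Y52.SJ

section

variable {V : Type} [NormedAddCommGroup V] [InnerProductSpace ℝ V] [FiniteDimensional ℝ V]

/-- the Cayley transform -/
lemma cayley {J X : V →L[ℝ] V} (hX : Adm J X) {t : ℝ} (ht : ‖t • X‖ < 1) :
    ∃ S : V →L[ℝ] V, Conf J S 1 ∧ (∀ x y, inner ℝ (S x) y = inner ℝ x (S y)) ∧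
      ∀ v, S v - v = t • X (S v + v) := by
  have : CompleteSpace V := FiniteDimensional.complete ℝ V
  set A : V →L[ℝ] V := t • X with hA
  set U : (V →L[ℝ] V)ˣ := Units.oneSub A ht with hU
  have hUv : (U : V →L[ℝ] V) = 1 - A := rfl
  set T : V →L[ℝ] V := ((U⁻¹ : (V →L[ℝ] V)ˣ) : V →L[ℝ] V) with hT
  have h1 : (1 - A) * T = 1 := by rw [← hUv, hT, Units.mul_inv]
  have h2 : T * (1 - A) = 1 := by rw [← hUv, hT, Units.inv_mul]
  have hcomm : T * (1 + A) = (1 + A) * T := by
    have h3 : (1 - A) * (1 + A) = (1 + A) * (1 - A) := by noncomm_ring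
    calc T * (1 + A) = T * (1 + A) * ((1 - A) * T) := by rw [h1, mul_one]
      _ = T * ((1 + A) * (1 - A)) * T := by noncomm_ring
      _ = T * ((1 - A) * (1 + A)) * T := by rw [h3]
      _ = (T * (1 - A)) * (1 + A) * T := by noncomm_ring
      _ = (1 + A) * T := by rw [h2, one_mul]
  have e1 : ∀ x, (1 - A) x = x - A x := fun x => rfl
  have e2 : ∀ x, (1 + A) x = x + A x := fun x => rfl
  have k1 : ∀ x, T x - A (T x) = x := by
    intro x
    have := congrArg (fun f : V →L[ℝ] V => f x) h1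
    exact this
  have hAs : ∀ x y, inner ℝ (A x) y = inner ℝ x (A y) := by
    intro x y
    rw [hA, smul_apply, smul_apply, inner_smul_left,
      inner_smul_right, hX.1]
    rfl
  have hAJ : ∀ x, A (J x) = -J (A x) := by
    intro x
    rw [hA, smul_apply, smul_apply, hX.2, map_smul,
      smul_neg]
  set S : V →L[ℝ] V := T * (1 + A) with hS
  have s1 : ∀ x, S x = T (x + A x) := fun x => rfl
  have s2 : ∀ x, S x = T x + A (T x) := by
    intro x
    have := congrArg (fun f : V →L[ℝ] V => f x) hcomm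
    exact this
  have s3 : ∀ x, S x - A (S x) = x + A x := by
    intro x
    rw [s1]
    exact k1 (x + A x)
  have o1 : ∀ x z, om J (x + A x) z = om J x (z - A z) := by
    intro x z
    unfold om
    rw [map_add, inner_add_left, inner_sub_right, ← hAs, hAJ, inner_neg_left]
    ring
  have o2 : ∀ x z, om J x (z + A z) = om J (x - A x) z := by
    intro x z
    unfold om
    rw [map_sub, inner_add_right, inner_sub_left, ← hAs, hAJ, inner_neg_left]
    ring
  refine ⟨S, ?_, ?_, ?_⟩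
  · intro x y
    rw [s2 x, o1, s3, o2, k1, one_mul]
  · intro x y
    have h3 : inner ℝ (S x) y = inner ℝ (S x) (T y - A (T y)) := by rw [k1]
    have h4 : inner ℝ (S x) (T y - A (T y)) = inner ℝ (S x - A (S x)) (T y) := by
      rw [inner_sub_right, inner_sub_left, hAs]
    have h5 : inner ℝ (x + A x) (T y) = inner ℝ x (T y + A (T y)) := by
      rw [inner_add_left, inner_add_right, hAs]
    rw [h3, h4, s3, h5, ← s2]
  · intro v
    have h3 := s3 v
    have h4 : A (S v + v) = S v - v := by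
      rw [map_add]
      have : A (S v) + A v = A (S v) + (S v - A (S v) - v) := by rw [h3]; abel
      rw [this]
      abel
    rw [← h4]
    rfl

/-- one step -/
lemma step {J : V →L[ℝ] V} {C : Set V} (hC : NF J C) {X : V →L[ℝ] V} (hX : Adm J X) (b : V)
    {t : ℝ} (ht0 : 0 < t) (ht : ‖t • X‖ < 1) :
    ∃ v w : V, ‖v‖ = 1 ∧ w - v = t • X (w + v) ∧
      ∀ x ∈ C, inner ℝ x v < 2 * t * inner ℝ b v + (1 + t ^ 2) * ‖w‖ := by
  have : CompleteSpace V := FiniteDimensional.complete ℝ V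
  obtain ⟨S, hS1, hS2, hS3⟩ := cayley hX ht
  have hρ : 1 < (1 + t ^ 2) ^ 2 := by nlinarith [sq_nonneg t, sq_pos_of_pos ht0]
  have hex : ∃ z : V, ‖z‖ ≤ 1 ∧ (2 * t) • b + ((1 + t ^ 2) • S) z ∉ C := by
    by_contra hcon
    push Not at hcon
    have h1 := hC.max ((1 + t ^ 2) • S) ((2 * t) • b) ((1 + t ^ 2) ^ 2) (by
      intro x y
      have h2 := hS1 x y
      unfold om at h2 ⊢
      rw [smul_apply, smul_apply, map_smul,
        inner_smul_left, inner_smul_right, h2]
      simp only [conj_trivial]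
      ring) hcon
    linarith
  obtain ⟨z, hz, hq⟩ := hex
  obtain ⟨f, u, hf1, hf2⟩ := geometric_hahn_banach_closed_point hC.conv hC.cpt.isClosed hq
  set v' : V := (InnerProductSpace.toDual ℝ V).symm f with hv'
  have hfv : ∀ x, f x = inner ℝ x v' := by
    intro x
    rw [real_inner_comm, hv', InnerProductSpace.toDual_symm_apply]
  have h0C : (0 : V) ∈ C := hC.ball 0 (by simp)
  have hv0 : v' ≠ 0 := by
    intro h
    have h1 := hf1 0 h0C
    rw [map_zero] at h1
    rw [hfv, h, inner_zero_right] at hf2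
    linarith
  have hn : 0 < ‖v'‖ := norm_pos_iff.2 hv0
  refine ⟨‖v'‖⁻¹ • v', S (‖v'‖⁻¹ • v'), ?_, hS3 _, ?_⟩
  · rw [norm_smul, norm_inv, norm_norm, inv_mul_cancel₀ hn.ne']
  · intro x hx
    set v : V := ‖v'‖⁻¹ • v' with hv
    have h1 : inner ℝ x v < inner ℝ ((2 * t) • b + ((1 + t ^ 2) • S) z) v := by
      rw [hv, inner_smul_right, inner_smul_right]
      refine mul_lt_mul_of_pos_left ?_ (inv_pos.2 hn)
      rw [← hfv, ← hfv]
      exact (hf1 x hx).trans hf2
    refine lt_of_lt_of_le h1 ?_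
    rw [inner_add_left, inner_smul_left, smul_apply, inner_smul_left, hS2]
    simp only [conj_trivial]
    have h2 : inner ℝ z (S v) ≤ ‖S v‖ := by
      refine (real_inner_le_norm _ _).trans ?_
      calc ‖z‖ * ‖S v‖ ≤ 1 * ‖S v‖ := by gcongr
        _ = ‖S v‖ := one_mul _
    have h3 : (1 + t ^ 2) * inner ℝ z (S v) ≤ (1 + t ^ 2) * ‖S v‖ := by gcongr
    linarith

end

theorem main : S_VAR := by
  intro V _ _ _ _ J _ C hC X b hX
  -- the parameters
  obtain ⟨K, hK⟩ := exists_nat_gt (2 * ‖X‖)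
  let t : ℕ → ℝ := fun k => 1 / ((k : ℝ) + K + 1)
  have ht0 : ∀ k, 0 < t k := fun k => by positivity
  have htX : ∀ k, ‖t k • X‖ ≤ 1 / 2 := by
    intro k
    rw [norm_smul, Real.norm_eq_abs, abs_of_pos (ht0 k)]
    have h1 : (0:ℝ) < (k : ℝ) + K + 1 := by positivity
    change 1 / ((k : ℝ) + K + 1) * ‖X‖ ≤ 1 / 2
    rw [div_mul_eq_mul_div, one_mul, div_le_div_iff₀ h1 (by norm_num)]
    have h2 : (0:ℝ) ≤ k := Nat.cast_nonneg k
    linarith
  have htl : Tendsto t atTop (𝓝 0) := by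
    have h1 : Tendsto (fun k : ℕ => ((k : ℝ) + (K + 1))) atTop atTop :=
      tendsto_atTop_add_const_right _ _ tendsto_natCast_atTop_atTop
    have h2 := h1.inv_tendsto_atTop
    refine h2.congr fun k => ?_
    change ((k : ℝ) + (K + 1))⁻¹ = 1 / ((k : ℝ) + K + 1)
    rw [one_div, add_assoc]
  choose v w hv hw hx using fun k => step hC hX b (ht0 k) (lt_of_le_of_lt (htX k) (by norm_num))
  obtain ⟨u, hu, φ, hφ, hlim⟩ := (isCompact_sphere (0 : V) 1).tendsto_subseq
    (x := v) (fun k => by rw [mem_sphere_zero_iff_norm]; exact hv k)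
  rw [mem_sphere_zero_iff_norm] at hu
  have hφt : Tendsto φ atTop atTop := hφ.tendsto_atTop
  have htφ : Tendsto (fun k => t (φ k)) atTop (𝓝 0) := htl.comp hφt
  -- the vectors w
  have hw3 : ∀ k, ‖w k‖ ≤ 3 := by
    intro k
    have h1 : w k = v k + t k • X (w k + v k) := by rw [← hw k]; abel
    have h2 : ‖t k • X (w k + v k)‖ ≤ 1 / 2 * (‖w k‖ + 1) := by
      have h3 : t k • X (w k + v k) = (t k • X) (w k + v k) := rfl
      rw [h3]
      refine ((t k • X).le_opNorm _).trans ?_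
      have h4 : ‖w k + v k‖ ≤ ‖w k‖ + 1 := by
        refine (norm_add_le _ _).trans ?_
        rw [hv k]
      exact mul_le_mul (htX k) h4 (norm_nonneg _) (by norm_num)
    have h5 : ‖w k‖ ≤ 1 + 1 / 2 * (‖w k‖ + 1) := by
      calc ‖w k‖ = ‖v k + t k • X (w k + v k)‖ := by rw [← h1]
        _ ≤ ‖v k‖ + ‖t k • X (w k + v k)‖ := norm_add_le _ _
        _ ≤ _ := by rw [hv k]; linarith
    linarith
  have hwv : Tendsto (fun k => w k - v k) atTop (𝓝 0) := by
    rw [tendsto_zero_iff_norm_tendsto_zero]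
    have h1 : Tendsto (fun k => t k * (‖X‖ * 4)) atTop (𝓝 0) := by
      have := htl.mul_const (‖X‖ * 4)
      rwa [zero_mul] at this
    refine squeeze_zero (fun k => norm_nonneg _) (fun k => ?_) h1
    rw [hw k, norm_smul, Real.norm_eq_abs, abs_of_pos (ht0 k)]
    refine mul_le_mul_of_nonneg_left ?_ (ht0 k).le
    refine (X.le_opNorm _).trans ?_
    refine mul_le_mul_of_nonneg_left ?_ (norm_nonneg _)
    refine (norm_add_le _ _).trans ?_
    rw [hv k]
    linarith [hw3 k]
  have hvφ : Tendsto (fun k => v (φ k)) atTop (𝓝 u) := hlim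
  have hwφ : Tendsto (fun k => w (φ k)) atTop (𝓝 u) := by
    have h1 := (hwv.comp hφt).add hvφ
    rw [zero_add] at h1
    refine h1.congr fun k => ?_
    simp
  have hnw : Tendsto (fun k => ‖w (φ k)‖) atTop (𝓝 1) := by
    have := hwφ.norm
    rwa [hu] at this
  refine ⟨u, hu, ?_, ?_⟩
  · intro x hxC
    have h1 : Tendsto (fun k => inner ℝ x (v (φ k))) atTop (𝓝 (inner ℝ x u)) :=
      tendsto_const_nhds.inner hvφ
    have h2 : Tendsto (fun k => 2 * t (φ k) * inner ℝ b (v (φ k)) +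
        (1 + t (φ k) ^ 2) * ‖w (φ k)‖) atTop (𝓝 (2 * 0 * inner ℝ b u + (1 + 0 ^ 2) * 1)) :=
      ((htφ.const_mul 2).mul (tendsto_const_nhds.inner hvφ)).add
        (((htφ.pow 2).const_add 1).mul hnw)
    have h3 := le_of_tendsto_of_tendsto' h1 h2 fun k => (hx (φ k) x hxC).le
    linarith
  · set y : ℕ → V := fun k => w (φ k) + v (φ k) with hy
    have hyl : Tendsto y atTop (𝓝 (u + u)) := hwφ.add hvφ
    have h1 : Tendsto (fun k => 2 * inner ℝ b (v (φ k)) +
        inner ℝ (X (y k)) (y k) / (‖w (φ k)‖ + 1) + t (φ k) * ‖w (φ k)‖) atTop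
        (𝓝 (2 * inner ℝ b u + inner ℝ (X (u + u)) (u + u) / (1 + 1) + 0 * 1)) := by
      refine ((((tendsto_const_nhds.inner hvφ).const_mul 2)).add ?_).add (htφ.mul hnw)
      refine Tendsto.div ?_ (hnw.add_const 1) (by norm_num)
      exact ((X.continuous.tendsto _).comp hyl).inner hyl
    have h2 : ∀ k, 0 ≤ 2 * inner ℝ b (v (φ k)) +
        inner ℝ (X (y k)) (y k) / (‖w (φ k)‖ + 1) + t (φ k) * ‖w (φ k)‖ := by
      intro k
      set s := t (φ k) with hs
      have hs0 : 0 < s := ht0 (φ k)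
      have hsphere := hx (φ k) (v (φ k)) (hC.ball _ (hv _).le)
      rw [real_inner_self_eq_norm_sq, hv, one_pow] at hsphere
      have h3 : ‖w (φ k)‖ ^ 2 - 1 = s * inner ℝ (X (y k)) (y k) := by
        have h4 : inner ℝ (w (φ k) - v (φ k)) (w (φ k) + v (φ k)) =
            ‖w (φ k)‖ ^ 2 - ‖v (φ k)‖ ^ 2 := by
          rw [inner_sub_left, inner_add_right, inner_add_right, real_inner_self_eq_norm_sq,
            real_inner_self_eq_norm_sq, real_inner_comm (v (φ k)) (w (φ k))]
          ring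
        rw [hv, one_pow] at h4
        rw [← h4, hw (φ k), inner_smul_left]
        simp only [conj_trivial]
        rfl
      have hn1 : 0 < ‖w (φ k)‖ + 1 := by positivity
      have h5 : ‖w (φ k)‖ - 1 = s * (inner ℝ (X (y k)) (y k) / (‖w (φ k)‖ + 1)) := by
        rw [← mul_div_assoc, ← h3, eq_div_iff hn1.ne']
        ring
      have h6 : 0 < s * (2 * inner ℝ b (v (φ k)) +
          inner ℝ (X (y k)) (y k) / (‖w (φ k)‖ + 1) + s * ‖w (φ k)‖) := by
        have : s * (2 * inner ℝ b (v (φ k)) +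
          inner ℝ (X (y k)) (y k) / (‖w (φ k)‖ + 1) + s * ‖w (φ k)‖) =
          2 * s * inner ℝ b (v (φ k)) + (‖w (φ k)‖ - 1) + s ^ 2 * ‖w (φ k)‖ := by
          rw [h5]; ring
        rw [this]
        linarith
      exact ((mul_pos_iff_of_pos_left hs0).1 h6).le
    have h3 := ge_of_tendsto' h1 h2
    rw [map_add, inner_add_left, inner_add_right] at h3
    linarith

end Pool.Agent.Y291.SJ.Var
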